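import Pool.Agent.H98.V.Tw

/-!
# The local data of a locally trivial cocycle of `y² = x³ + 16 t³`
-/

set_option autoImplicit false
set_option linter.unusedSectionVars false
set_option linter.unusedVariables false

namespace Pool.Agent.H98.V

open WeierstrassCurve
open scoped Classical
open Pool.Agent.Y696
open Pool.Agent.TH841.SH.D
open Pool.Agent.TH841.SH (IsR IsX gf not_isX isX_some isX_zero)
open Pool.Agent.K7.H70.TW (Ed)

section loc
variable {K Kv : Type} [Field K] [CharZero K] [Field Kv] [CharZero Kv] [Algebra K Kv] (D : RD K)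
  {t : K}

/-- the square root at one root -/
theorem locB (ht : t ≠ 0) {f : Coch (Ed t)} (h2 : ∀ σ, f σ + f σ = 0) {w : AlgebraicClosure K}
    (hw : Sg t D.ρ w f) (ι : AlgebraicClosure K →ₐ[K] AlgebraicClosure Kv)
    {P : Pt (Ed t) (AlgebraicClosure Kv)}
    (hP : ∀ (τ : Gal Kv) (σ : Gal K), (∀ x, τ (ι x) = ι (σ x)) →
      act (Ed t) (τ.toAlgHom.restrictScalars K) P = P + act (Ed t) ι (f σ))
    {X Y : AlgebraicClosure Kv}
    (hn' : ((Ed t).baseChange (AlgebraicClosure Kv)).toAffine.Nonsingular X Y)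
    (hPP : P + P = mkp hn') :
    ∃ z : AlgebraicClosure Kv, z ^ 2 = (X - algebraMap K _ t * rt (ι D.ρ)) * ι (w ^ 2) ∧
      ∀ τ : Gal Kv, τ (ι D.ρ) = ι D.ρ → τ z = z := by
  have h20 : (2 : AlgebraicClosure Kv) ≠ 0 := two_ne_zero
  have h30 : (3 : AlgebraicClosure Kv) ≠ 0 := three_ne_zero
  have hρ' : (ι D.ρ) ^ 3 = 2 := by rw [← map_pow, D.hρ, map_ofNat]
  have hz' : (ι D.z) ^ 2 + ι D.z + 1 = 0 := by
    rw [← map_pow, ← map_add, ← map_one ι, ← map_add, D.hz, map_zero]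
  have hR := isRt (K := K) (t := t) hρ' hz'
  have n1 := trt_ne (K := K) ht (rt_ne1 h20 h30 hρ' hz')
  have n2 := trt_ne (K := K) ht (rt_ne2 h20 h30 hρ' hz')
  have n3 := trt_ne (K := K) ht (rt_ne3 h20 h30 hρ' hz')
  rcases pt_cases P with rfl | ⟨u, v, hn, rfl⟩
  · rw [add_zero] at hPP
    exact absurd hPP.symm (Affine.Point.some_ne_zero _)
  have hv : v ≠ 0 := by
    intro hv
    rw [(mk_add_self hR h20 hn).2 hv] at hPP
    exact absurd hPP.symm (Affine.Point.some_ne_zero _)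
  obtain ⟨X', Y', hn'', e1, hXa⟩ := mk_dup hR h20 hn hv
  rw [e1] at hPP
  obtain ⟨rfl, rfl⟩ := mk_ext.1 hPP
  refine ⟨gf ((Ed t).baseChange (AlgebraicClosure Kv)) (algebraMap K _ t * rt (ι D.ρ))
    (algebraMap K _ t * rt (ι D.z * ι D.ρ))
    (algebraMap K _ t * rt ((ι D.z) ^ 2 * ι D.ρ)) (mkp hn) * ι w, ?_, ?_⟩
  · rw [mul_pow, map_pow ι w, hXa]
  · intro τ hτ
    obtain ⟨σ, hσ⟩ := exists_restr ι τ
    have hσρ : σ D.ρ = D.ρ := by
      apply ι.injective
      change ι (σ D.ρ) = ι D.ρ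
      rw [← hσ, hτ]
    have hτz : τ (ι D.z) = ι D.z := by rw [hσ, D.σz]
    have e2 : τ (gf ((Ed t).baseChange (AlgebraicClosure Kv)) (algebraMap K _ t * rt (ι D.ρ))
        (algebraMap K _ t * rt (ι D.z * ι D.ρ)) (algebraMap K _ t * rt ((ι D.z) ^ 2 * ι D.ρ))
          (mkp hn)) =
        gf ((Ed t).baseChange (AlgebraicClosure Kv)) (algebraMap K _ t * rt (ι D.ρ))
        (algebraMap K _ t * rt (ι D.z * ι D.ρ)) (algebraMap K _ t * rt ((ι D.z) ^ 2 * ι D.ρ))
          (act (Ed t) (τ.toAlgHom.restrictScalars K) (mkp hn)) := by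
      have := act_gf (Ed t) (τ.toAlgHom.restrictScalars K) (algebraMap K _ t * rt (ι D.ρ))
        (algebraMap K _ t * rt (ι D.z * ι D.ρ)) (algebraMap K _ t * rt ((ι D.z) ^ 2 * ι D.ρ))
        (mkp hn)
      have r1 : ∀ x : AlgebraicClosure Kv, (τ.toAlgHom.restrictScalars K)
          (algebraMap K _ t * rt x) = algebraMap K _ t * rt (τ x) :=
        fun x => by
          rw [map_mul, AlgHom.commutes]
          exact congrArg _ (map_rt (τ.toAlgHom.restrictScalars K) x)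
      rw [r1, r1, r1, map_mul, map_mul, map_pow, hτ, hτz] at this
      exact this
    rw [map_mul, e2, hP τ σ hσ, hσ]
    set T := act (Ed t) ι (f σ) with hT
    have hTT : T + T = 0 := by
      rw [hT, ← map_add, h2, map_zero]
    have hTX : IsX ((Ed t).baseChange (AlgebraicClosure Kv)) (algebraMap K _ t * rt (ι D.ρ)) T ↔
        IsX ((Ed t).baseChange (AlgebraicClosure K)) (algebraMap K _ t * rt D.ρ) (f σ) := by
      have := act_isX (Ed t) ι (algebraMap K _ t * rt D.ρ) (f σ)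
      rwa [map_mul, AlgHom.commutes, map_rt] at this
    obtain ⟨u', v', hn3, e3, hv', h3, h4⟩ := mk_sign hR h20 n1 n2 n3 hn hv hTT
    rw [e3]
    by_cases hX : IsX ((Ed t).baseChange (AlgebraicClosure Kv)) (algebraMap K _ t * rt (ι D.ρ)) T
    · rw [hw.1 σ hσρ (hTX.1 hX), h3 hX]
    · rw [hw.2 σ hσρ (fun h => hX (hTX.2 h)), map_neg, h4 hX]
      ring

/-- **the local data of a locally trivial cocycle** -/
theorem locAll (ht : t ≠ 0) {f : Coch (Ed t)} (hf : IsCoc (Ed t) f) (h2 : ∀ σ, f σ + f σ = 0)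
    {w : AlgebraicClosure K} (hw : Sg t D.ρ w f) (hloc : LocTriv (Ed t) Kv f)
    (hS : ∃ S : Pt (Ed t) K, (S + S) + (S + S) ≠ 0)
    (ι : AlgebraicClosure K →ₐ[K] AlgebraicClosure Kv) :
    ∃ x y : Kv, y ≠ 0 ∧ y ^ 2 = x ^ 3 + 16 * (algebraMap K Kv t) ^ 3 ∧ ∀ s : Gal K,
      ∃ z : AlgebraicClosure Kv, z ^ 2 = (algebraMap Kv _ x -
        algebraMap K _ t * rt (ι (s D.ρ))) * ι (s (w ^ 2)) ∧
        ∀ τ : Gal Kv, τ (ι (s D.ρ)) = ι (s D.ρ) → τ z = z := by
  have h20 : (2 : AlgebraicClosure Kv) ≠ 0 := two_ne_zero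
  have h30 : (3 : AlgebraicClosure Kv) ≠ 0 := three_ne_zero
  have hρ' : (ι D.ρ) ^ 3 = 2 := by rw [← map_pow, D.hρ, map_ofNat]
  have hz' : (ι D.z) ^ 2 + ι D.z + 1 = 0 := by
    rw [← map_pow, ← map_add, ← map_one ι, ← map_add, D.hz, map_zero]
  have hR := isRt (K := K) (t := t) hρ' hz'
  have n1 := trt_ne (K := K) ht (rt_ne1 h20 h30 hρ' hz')
  have n2 := trt_ne (K := K) ht (rt_ne2 h20 h30 hρ' hz')
  have n3 := trt_ne (K := K) ht (rt_ne3 h20 h30 hρ' hz')
  obtain ⟨P, hP⟩ := hloc ι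
  -- a rational point with `4 S ≠ 0`
  obtain ⟨S, hSfix, hS4⟩ : ∃ S : Pt (Ed t) (AlgebraicClosure Kv), (∀ τ : Gal Kv,
      act (Ed t) (τ.toAlgHom.restrictScalars K) S = S) ∧ (S + S) + (S + S) ≠ 0 := by
    obtain ⟨S, hS⟩ := hS
    refine ⟨act (Ed t) (Algebra.ofId K (AlgebraicClosure Kv)) S, fun τ => ?_, fun h => hS ?_⟩
    · rw [act_act]
      congr 1
      congr 1
      exact AlgHom.ext fun x => AlgHom.commutes (τ.toAlgHom.restrictScalars K) x
    · apply act_inj (Ed t) (Algebra.ofId K (AlgebraicClosure Kv))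
      rw [map_zero, map_add, map_add]
      exact h
  -- the point `R`
  obtain ⟨R, hRR, hR4⟩ : ∃ R : Pt (Ed t) (AlgebraicClosure Kv), (∀ (τ : Gal Kv) (σ : Gal K),
      (∀ x, τ (ι x) = ι (σ x)) →
      act (Ed t) (τ.toAlgHom.restrictScalars K) R = R + act (Ed t) ι (f σ)) ∧
      (R + R) + (R + R) ≠ 0 := by
    by_cases h4 : (P + P) + (P + P) = 0
    · refine ⟨P + S, fun τ σ hσ => ?_, ?_⟩
      · rw [map_add, hSfix, hP τ σ hσ]
        abel
      · have e1 : ((P + S) + (P + S)) + ((P + S) + (P + S)) =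
          ((P + P) + (P + P)) + ((S + S) + (S + S)) := by abel
        rw [e1, h4, zero_add]
        exact hS4
    · refine ⟨P, fun τ σ hσ => ?_, h4⟩
      rw [hP τ σ hσ]
      abel
  obtain ⟨X, Y, hn', hXY, hY⟩ : ∃ (X Y : AlgebraicClosure Kv)
      (hn' : ((Ed t).baseChange (AlgebraicClosure Kv)).toAffine.Nonsingular X Y),
      R + R = mkp hn' ∧ Y ≠ 0 := by
    rcases pt_cases (R + R) with h0 | ⟨X, Y, hn', h0⟩
    · exact absurd (by rw [h0, add_zero]) hR4
    · refine ⟨X, Y, hn', h0, fun hY => hR4 ?_⟩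
      rw [h0]
      exact (mk_add_self hR h20 hn').2 hY
  have hfix : ∀ τ : Gal Kv, τ X = X ∧ τ Y = Y := by
    intro τ
    obtain ⟨σ, hσ⟩ := exists_restr ι τ
    have h6 : act (Ed t) (τ.toAlgHom.restrictScalars K) (mkp hn') = mkp hn' := by
      rw [← hXY, map_add, hRR τ σ hσ]
      have h7 : act (Ed t) ι (f σ) + act (Ed t) ι (f σ) = 0 := by
        rw [← map_add, h2, map_zero]
      have h8 : ∀ A B : Pt (Ed t) (AlgebraicClosure Kv),
          (A + B) + (A + B) = (A + A) + (B + B) := fun A B => by abel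
      rw [h8, h7, add_zero]
    exact mk_ext.1 h6
  obtain ⟨x, hx⟩ := fixm (k := Kv) X (fun τ => (hfix τ).1)
  obtain ⟨y, hy⟩ := fixm (k := Kv) Y (fun τ => (hfix τ).2)
  refine ⟨x, y, ?_, ?_, fun s => ?_⟩
  · rintro rfl
    rw [map_zero] at hy
    exact hY hy.symm
  · apply (algebraMap Kv (AlgebraicClosure Kv)).injective
    have h9 := (Affine.equation_iff _ _).1 hn'.1
    rw [bc_a₁, bc_a₂, bc_a₃, bc_a₄, bc_a₆] at h9
    rw [map_pow, map_add, map_mul, map_pow, map_pow, map_ofNat, hx, hy,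
      ← IsScalarTower.algebraMap_apply]
    linear_combination h9
  · rw [hx]
    refine locB D ht h2 hw (ι.comp s.toAlgHom) (P := R + act (Ed t) ι (f s)) ?_ hn' ?_
    · intro τ σ' hσ'
      have hσ : ∀ x, τ (ι x) = ι ((s * σ' * s⁻¹) x) := by
        intro x
        have h5 := hσ' (s⁻¹ x)
        change τ (ι (s (s⁻¹ x))) = ι (s (σ' (s⁻¹ x))) at h5
        rw [← AlgEquiv.mul_apply s s⁻¹, mul_inv_cancel, AlgEquiv.one_apply] at h5
        exact h5
      have h6 : act (Ed t) (τ.toAlgHom.restrictScalars K) (act (Ed t) ι (f s)) =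
          act (Ed t) ι (act (Ed t) (s * σ' * s⁻¹).toAlgHom (f s)) := by
        rw [act_act, act_act]
        congr 1
        congr 1
        exact AlgHom.ext hσ
      have h7 : act (Ed t) (ι.comp s.toAlgHom) (f σ') =
          act (Ed t) ι (act (Ed t) s.toAlgHom (f σ')) := by
        rw [act_act]
      have h8 : f (s * σ' * s⁻¹) + act (Ed t) (s * σ' * s⁻¹).toAlgHom (f s) =
          f s + act (Ed t) s.toAlgHom (f σ') := by
        rw [← hf.2, ← hf.2, inv_mul_cancel_right]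
      rw [map_add, hRR τ _ hσ, h6, h7, add_assoc, ← map_add, h8, map_add, add_assoc]
    · have h7 : act (Ed t) ι (f s) + act (Ed t) ι (f s) = 0 := by
        rw [← map_add, h2, map_zero]
      have h8 : ∀ A B : Pt (Ed t) (AlgebraicClosure Kv),
          (A + B) + (A + B) = (A + A) + (B + B) := fun A B => by abel
      rw [h8, h7, add_zero, hXY]

end loc

end Pool.Agent.H98.V
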