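import Pool.Agent.H98.V.Sel
import Pool.Agent.H98.R.Main
import Pool.Agent.H98.B.Base2

/-!
# The 2-part of the Tate-Shafarevich group over the fields of the family
-/

set_option autoImplicit false
set_option linter.unusedSectionVars false
set_option linter.unusedVariables false

namespace Pool.Agent.H98.V

open WeierstrassCurve IsDedekindDomain NumberField WithZero
open scoped Classical
open Pool.Agent.K7.H70.TW (Ed)
open Pool.Agent.K7.H70.SM
open Pool.Agent.K7.H73.L3 (gz3)
open Pool.Agent.H98.Q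
open Pool.Agent.H98.R
open Pool.Agent.H98.B
open Pool.Agent.K7.H56
open Pool.Agent.K7.H56.P
open Pool.Agent.K7.H56.M
open Pool.Agent.K7.H70.AS
open Pool.Agent.Y696
open Pool.Agent.TH841.NF.D (Sha)

section
variable {K : Type} [Field K] [NumberField K] {d : ℤ}

/-- a small point -/
lemma small_ex (hK : Gz K) (hd : Dd d) (hp : Pd d K) (h : ¬ Tw d K) :
    ∃ x y : K, y ^ 2 = x ^ 3 + 16 * (d : K) ^ 3 ∧ vd hd hp x < 1 := by
  have hne : NeZero (d : K) := ⟨d_neF hd⟩
  unfold Tw at h
  push Not at h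
  obtain ⟨P, hP⟩ := h
  rcases pt_cases P with rfl | ⟨x, y, hxy, rfl⟩
  · exact absurd (add_zero _).symm (hP 0)
  · refine ⟨x, y, hxy, ?_⟩
    by_contra hcon
    push Not at hcon
    obtain ⟨R, hR⟩ := half_big hK hd hp hxy hcon
    exact hP R hR

/-- **the 2-part of the Tate-Shafarevich group** -/
theorem sha_of_rank (hK : Gz K) (hd : Dd d) (hp : Pd d K) (h : ¬ Tw d K)
    (x : Sha (Ed (d : K))) {n : ℕ} (hx : 2 ^ n • x = 0) : x = 0 := by
  obtain ⟨x₀, y₀, h₀, hx₀⟩ := small_ex hK hd hp h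
  induction n generalizing x with
  | zero => rwa [pow_zero, one_smul] at hx
  | succ n ih =>
    refine ih x (sha_two hK hd hp h₀ hx₀ _ ?_)
    rw [← two_nsmul, ← mul_smul, ← pow_succ']
    exact hx

/-- a point over the rational numbers -/
lemma tw_rat (hK : Gz K) (hd : Dd d) (h : Infinite (Ed (d : ℚ)).toAffine.Point) : ¬ Tw d K := by
  intro hT
  have hne : NeZero (d : K) := ⟨d_neF hd⟩
  have hfin := fin_of_dbl (fgd K d hd) hT
  have e1 : (Ed (d : ℚ)).baseChange K = Ed (d : K) := by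
    show (Ed (d : ℚ)).map (algebraMap ℚ K) = _
    unfold Ed WeierstrassCurve.map
    simp only [map_zero, map_pow, map_mul, map_ofNat, map_intCast]
  have e2 : (Ed (d : ℚ)).baseChange ℚ = Ed (d : ℚ) := WeierstrassCurve.map_id _
  have hf1 : Finite ((Ed (d : ℚ)).baseChange K).toAffine.Point := by
    rw [e1]
    exact hfin
  have hf2 : Finite ((Ed (d : ℚ)).baseChange ℚ).toAffine.Point :=
    Finite.of_injective _ (Affine.Point.map_injective (W' := Ed (d : ℚ)) (f := Algebra.ofId ℚ K))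
  rw [e2] at hf2
  exact not_finite (Ed (d : ℚ)).toAffine.Point

/-- the point `(20, 100)` for `d = 5` -/
lemma tw_five (hK : Gz K) (hd : Dd 5) (hp : Pd 5 K) : ¬ Tw 5 K := by
  intro hT
  have hne : NeZero ((5 : ℤ) : K) := ⟨d_neF hd⟩
  have h0 : (100 : K) ^ 2 = 20 ^ 3 + 16 * ((5 : ℤ) : K) ^ 3 := by push_cast; norm_num
  have h1 := dbl_big hK hd hp h0 (hT (pt h0))
  have h2 : vd hd hp (20 : K) < 1 := by
    have e : (20 : K) = 2 * 2 * ((5 : ℤ) : K) := by push_cast; norm_num
    rw [e, map_mul, map_mul, vd_two, vd_d, one_mul, one_mul, ← exp_zero, exp_lt_exp]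
    norm_num
  exact absurd h1 (not_le.2 h2)

end

/-- the order over the base field for `d = 5` -/
lemma base_five : BaseOrd 5 1 := by
  intro F D _ _ _ _ _ _ ι h2 ⟨r, hr⟩ f hf
  exact Pool.Agent.H98.B.base_ord F D ι h2 ⟨r, by rw [hr]; norm_num⟩ f hf

lemma dd_five : Dd 5 := ⟨by norm_num, by norm_num, by norm_num⟩

/-- the prime number is inert in the base field -/
lemma pd_cyc {d : ℤ} (hd : Dd d) (F : Type) [Field F] [NumberField F]
    [IsCyclotomicExtension {3} ℚ F] : Pd d F := by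
  obtain ⟨ι'⟩ := exists_iota (N := F) (gz3 F).om
  exact pd_base hd F (ι'.comp (RingEquiv.subringCongr RR_eis : Pool.Agent.Y688.RR →+* eis))

end Pool.Agent.H98.V
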