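import Pool.Agent.H98.V.Lc

/-!
# The conditions at the finite places
-/

set_option autoImplicit false
set_option linter.unusedSectionVars false
set_option linter.unusedVariables false

namespace Pool.Agent.H98.V

open WeierstrassCurve IsDedekindDomain NumberField WithZero
open scoped Classical
open Pool.Agent.Y696
open Pool.Agent.TH841.SH.D
open Pool.Agent.TH841.SH (IsR IsX gf not_isX isX_some isX_zero)
open Pool.Agent.K7.H70.TW (Ed)
open Pool.Agent.H98.A (le_exp_of_lt)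

section alg
variable {L : Type} [Field L] {ν : Valuation L ℤᵐ⁰} {t : L}

/-- a small point near a root -/
lemma par_small (h5 : ν t = exp (-1 : ℤ)) (h2 : ν 2 = 1) (h3 : ν 3 = 1) {x y θ : L}
    (hθ : θ ^ 3 = 2) (hy : y ≠ 0) (hxy : y ^ 2 = x ^ 3 + 16 * t ^ 3) (hx : ν x < 1)
    (hxt : ν (x + 2 * t * θ) ≤ exp (-2 : ℤ)) : ∃ m : ℤ, ν (x + 2 * t * θ) = exp (2 * m) := by
  have hνθ : ν θ = 1 := v_one_of_cube ν h2 (by rw [hθ, sub_self, map_zero]; exact zero_lt_one)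
  have hfac : (x + 2 * t * θ) * (x ^ 2 - 2 * t * θ * x + 4 * t ^ 2 * θ ^ 2) = y ^ 2 := by
    rw [hxy]
    linear_combination 8 * t ^ 3 * hθ
  obtain ⟨l, hl⟩ := exp_rep ((ν.ne_zero_iff).2 hy)
  have h4 : ν (4 : L) = 1 := by
    rw [show (4 : L) = 2 * 2 by norm_num, map_mul, h2, one_mul]
  have hx1 : ν x ≤ exp (-1 : ℤ) := by
    have := le_exp_of_lt (n := 0) (by rwa [exp_zero])
    exact this
  have h12 : ν (12 * t ^ 2 * θ ^ 2) = exp (-2 : ℤ) := by
    rw [show (12 : L) = 3 * 4 by norm_num, map_mul, map_mul, map_mul, h3, h4, map_pow, map_pow,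
      hνθ, h5, ← exp_nsmul]
    simp
  have h5' : ν (x ^ 2 - 2 * t * θ * x + 4 * t ^ 2 * θ ^ 2) = exp (-2 : ℤ) := by
    have e : x ^ 2 - 2 * t * θ * x + 4 * t ^ 2 * θ ^ 2 =
        (x + 2 * t * θ) * (x - 4 * t * θ) + 12 * t ^ 2 * θ ^ 2 := by ring
    rw [e, Valuation.map_add_eq_of_lt_right, h12]
    rw [h12, map_mul]
    have h6 : ν (x - 4 * t * θ) ≤ exp (-1 : ℤ) := by
      refine ν.map_sub_le hx1 ?_
      rw [map_mul, map_mul, h4, hνθ, h5, one_mul, mul_one]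
    refine lt_of_le_of_lt (mul_le_mul' hxt h6) ?_
    rw [← exp_add, exp_lt_exp]
    norm_num
  have h6 := congrArg ν hfac
  rw [map_mul, h5', map_pow, hl, ← exp_nsmul] at h6
  refine ⟨l + 1, ?_⟩
  have h7 : ν (x + 2 * t * θ) = exp (2 * l) * exp (2 : ℤ) := by
    have h8 : exp (-2 : ℤ) * exp (2 : ℤ) = (1 : ℤᵐ⁰) := by rw [← exp_add]; simp
    rw [← mul_one (ν (x + 2 * t * θ)), ← h8, ← mul_assoc, h6]
    simp only [nsmul_eq_mul]
    push_cast
    rfl
  rw [h7, ← exp_add]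
  congr 1
  ring

/-- two small points in the same class -/
lemma par_eq (h5 : ν t = exp (-1 : ℤ)) (h2 : ν 2 = 1) (h3 : ν 3 = 1) {x y x' y' θ : L}
    (hθ : θ ^ 3 = 2) (hy : y ≠ 0) (hxy : y ^ 2 = x ^ 3 + 16 * t ^ 3) (hx : ν x < 1)
    (hy' : y' ≠ 0) (hxy' : y' ^ 2 = x' ^ 3 + 16 * t ^ 3) (hx' : ν x' < 1)
    (hxx : ν (x - x') ≤ exp (-2 : ℤ)) :
    ∃ m : ℤ, ν (x + 2 * t * θ) * ν (x' + 2 * t * θ) = exp (2 * m) := by
  have hνθ : ν θ = 1 := v_one_of_cube ν h2 (by rw [hθ, sub_self, map_zero]; exact zero_lt_one)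
  have e1 : x' + 2 * t * θ = (x + 2 * t * θ) - (x - x') := by ring
  have hx1 : ν x ≤ exp (-1 : ℤ) := by
    have := le_exp_of_lt (n := 0) (z := ν x) (by rw [exp_zero]; exact hx)
    exact this
  by_cases h : ν (x + 2 * t * θ) ≤ exp (-2 : ℤ)
  · obtain ⟨m, hm⟩ := par_small h5 h2 h3 hθ hy hxy hx h
    have h' : ν (x' + 2 * t * θ) ≤ exp (-2 : ℤ) := by
      rw [e1]
      exact ν.map_sub_le h hxx
    obtain ⟨m', hm'⟩ := par_small h5 h2 h3 hθ hy' hxy' hx' h'
    exact ⟨m + m', by rw [hm, hm', ← exp_add]; congr 1; ring⟩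
  · push Not at h
    have h6 : ν (x + 2 * t * θ) ≤ exp (-1 : ℤ) := by
      refine ν.map_add_le hx1 ?_
      rw [map_mul, map_mul, h2, hνθ, h5, one_mul, mul_one]
    have h7 : ν (x' + 2 * t * θ) = ν (x + 2 * t * θ) := by
      rw [e1]
      exact Valuation.map_sub_eq_of_lt_left ν (lt_of_le_of_lt hxx h)
    obtain ⟨k, hk⟩ := exp_rep (ne_of_gt (lt_trans exp_pos h))
    rw [h7, hk, ← exp_add]
    exact ⟨k, by congr 1; ring⟩

end alg

section pl
variable {K : Type} [Field K] [NumberField K] (D : RD K) {t : K}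

/-- the condition away from six, from the roots -/
theorem ev_of_roots {v : HeightOneSpectrum (𝓞 K)} (hv2 : v.valuation K 2 = 1)
    (hv3 : v.valuation K 3 = 1) {ω' : K} (hω' : ω' ^ 2 + ω' + 1 = 0) {η : Cb K}
    (claim : ∀ (θ : v.adicCompletion K) (hθ : θ ^ 3 = 2), ∃ m : ℤ,
      Valued.v (Cb.hom _ (algebraMap K (v.adicCompletion K)) θ hθ η) = exp (2 * m)) :
    EvV (v.valuation K) η := by
  have hinj := (algebraMap K (v.adicCompletion K)).injective
  have : CharZero (v.adicCompletion K) := charZero_of_injective_algebraMap hinj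
  set ν : Valuation (v.adicCompletion K) ℤᵐ⁰ := Valued.v with hν
  have hνK : ∀ a : K, ν (algebraMap K _ a) = v.valuation K a := fun a =>
    HeightOneSpectrum.valuedAdicCompletion_eq_valuation' v a
  have hν2 : ν 2 = 1 := by
    rw [← hv2, ← hνK, map_ofNat (algebraMap K (v.adicCompletion K)) 2]
  have hν3 : ν 3 = 1 := by
    rw [← hv3, ← hνK, map_ofNat (algebraMap K (v.adicCompletion K)) 3]
  by_cases hroot : ∃ θ : v.adicCompletion K, θ ^ 3 = 2
  swap
  · refine ⟨1, fun a ha => ?_⟩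
    exfalso
    apply hroot
    have ha1 : v.valuation K (a ^ 3 - 2) < 1 :=
      lt_of_le_of_lt ha (by rw [← exp_zero, exp_lt_exp]; norm_num)
    have hva : v.valuation K a = 1 := v_one_of_cube _ hv2 ha1
    have ha0 : a ≠ 0 := by
      rintro rfl
      simp at hva
    have ha0' : algebraMap K (v.adicCompletion K) a ≠ 0 := (map_ne_zero _).2 ha0
    obtain ⟨z, hz⟩ := cbrt_one_unit (L := v.adicCompletion K) hν3
      (2 / (algebraMap K (v.adicCompletion K) a) ^ 3) (by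
        have e : 2 / (algebraMap K (v.adicCompletion K) a) ^ 3 - 1 =
          algebraMap K (v.adicCompletion K) (-(a ^ 3 - 2)) /
            (algebraMap K (v.adicCompletion K) a) ^ 3 := by
          rw [map_neg, map_sub, map_pow, map_ofNat]
          field_simp
          ring
        rw [e]
        change ν _ < 1
        rw [map_div₀, map_pow, hνK, hνK, hva, Valuation.map_neg]
        simpa using ha1)
    refine ⟨algebraMap K (v.adicCompletion K) a * z, ?_⟩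
    rw [mul_pow, hz]
    field_simp
  obtain ⟨θ₀, hθ₀⟩ := hroot
  set ω : v.adicCompletion K := algebraMap K _ ω' with hω
  have hω1 : ω ^ 2 + ω + 1 = 0 := by
    rw [hω, ← map_pow, ← map_add, ← map_one (algebraMap K (v.adicCompletion K)), ← map_add, hω',
      map_zero]
  have hω3 : ω ^ 3 = 1 := by linear_combination (ω - 1) * hω1
  have t2 : (ω * θ₀) ^ 3 = 2 := by rw [mul_pow, hω3, one_mul, hθ₀]
  have t3 : (ω ^ 2 * θ₀) ^ 3 = 2 := by
    rw [mul_pow, ← pow_mul, mul_comm 2 3, pow_mul, hω3, one_pow, one_mul, hθ₀]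
  obtain ⟨m1, e1⟩ := claim θ₀ hθ₀
  obtain ⟨m2, e2⟩ := claim _ t2
  obtain ⟨m3, e3⟩ := claim _ t3
  obtain ⟨kb, hkb⟩ := exp_bd ν (algebraMap K (v.adicCompletion K) η.b)
  obtain ⟨kc, hkc⟩ := exp_bd ν (algebraMap K (v.adicCompletion K) η.c)
  set n : ℕ := (-(2 * m1)).toNat + (-(2 * m2)).toNat + (-(2 * m3)).toNat + kb + kc + 1 with hn
  refine ⟨n, fun a ha => ?_⟩
  have ha1 : v.valuation K (a ^ 3 - 2) < 1 :=
    lt_of_le_of_lt ha (by rw [← exp_zero, exp_lt_exp]; omega)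
  have hva : v.valuation K a = 1 := v_one_of_cube _ hv2 ha1
  have hνa : ν (algebraMap K _ a) = 1 := by rw [hνK, hva]
  have haa : ν ((algebraMap K (v.adicCompletion K) a) ^ 3 - 2) = v.valuation K (a ^ 3 - 2) := by
    have e : algebraMap K (v.adicCompletion K) (a ^ 3 - 2) =
        (algebraMap K (v.adicCompletion K) a) ^ 3 - 2 := by rw [map_sub, map_pow, map_ofNat]
    rw [← hνK, e]
  obtain ⟨θ', h3', hor, hd⟩ := root_near hν2 hν3 hω1 hθ₀ (a := algebraMap K _ a)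
    (by rw [haa]; exact ha1)
  rw [haa] at hd
  obtain ⟨m, hm, hmn⟩ : ∃ m : ℤ, ν (Cb.hom _ (algebraMap K (v.adicCompletion K)) θ' h3' η) =
      exp (2 * m) ∧ -(n : ℤ) + kb + kc < 2 * m := by
    rcases hor with rfl | rfl | rfl
    · exact ⟨m1, e1, by omega⟩
    · exact ⟨m2, e2, by omega⟩
    · exact ⟨m3, e3, by omega⟩
  have hvθ : ν θ' = 1 := v_one_of_cube ν hν2 (by rw [h3', sub_self, map_zero]; exact zero_lt_one)
  refine ⟨m, ?_⟩
  rw [← hm, ← hνK]
  refine Valuation.map_eq_of_sub_lt ν ?_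
  rw [hm]
  have e : algebraMap K (v.adicCompletion K) (η.ev a) -
      Cb.hom _ (algebraMap K (v.adicCompletion K)) θ' h3' η =
      (algebraMap K (v.adicCompletion K) a - θ') * (algebraMap K (v.adicCompletion K) η.b +
        algebraMap K (v.adicCompletion K) η.c * (algebraMap K (v.adicCompletion K) a + θ')) := by
    rw [Cb.hom_apply, Cb.ev, map_add, map_add, map_mul, map_mul, map_pow]
    ring
  rw [e, map_mul, hd]
  have h5 : ν (algebraMap K (v.adicCompletion K) η.b + algebraMap K (v.adicCompletion K) η.c *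
      (algebraMap K (v.adicCompletion K) a + θ')) ≤ exp ((kb + kc : ℕ) : ℤ) := by
    refine ν.map_add_le (hkb.trans (by rw [exp_le_exp]; omega)) ?_
    rw [map_mul]
    refine (mul_le_of_le_one_right' (ν.map_add_le hνa.le hvθ.le)).trans
      (hkc.trans (by rw [exp_le_exp]; omega))
  refine lt_of_le_of_lt (mul_le_mul' ha h5) ?_
  rw [← exp_add, exp_lt_exp]
  push_cast
  omega

/-- the local data over the completion -/
theorem roots (ht : t ≠ 0) {f : Coch (Ed t)} (hf : IsCoc (Ed t) f) (h2 : ∀ σ, f σ + f σ = 0)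
    {w : AlgebraicClosure K} {δ : Cb K} (hwδ : w ^ 2 = D.em δ) (hw : Sg t D.ρ w f)
    (v : HeightOneSpectrum (𝓞 K)) (hloc : LocTriv (Ed t) (v.adicCompletion K) f)
    (hS : ∃ S : Pt (Ed t) K, (S + S) + (S + S) ≠ 0) :
    ∃ x y : v.adicCompletion K, y ≠ 0 ∧
      y ^ 2 = x ^ 3 + 16 * (algebraMap K (v.adicCompletion K) t) ^ 3 ∧
      ∀ (θ : v.adicCompletion K) (hθ : θ ^ 3 = 2), ∃ z : v.adicCompletion K,
        z ^ 2 = (x + 2 * algebraMap K (v.adicCompletion K) t * θ) *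
          Cb.hom _ (algebraMap K (v.adicCompletion K)) θ hθ δ := by
  have hinj := (algebraMap K (v.adicCompletion K)).injective
  have : CharZero (v.adicCompletion K) := charZero_of_injective_algebraMap hinj
  obtain ⟨ι⟩ : Nonempty (AlgebraicClosure K →ₐ[K] AlgebraicClosure (v.adicCompletion K)) :=
    ⟨IsAlgClosed.lift⟩
  obtain ⟨x, y, hy, hxy, hs⟩ := locAll D ht hf h2 hw hloc hS ι
  refine ⟨x, y, hy, hxy, fun θ hθ => ?_⟩
  obtain ⟨s₀, hs₀⟩ := D.exists_s
  have hss : (s₀ * s₀) D.ρ = D.z ^ 2 * D.ρ := by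
    rw [AlgEquiv.mul_apply, hs₀, map_mul, hs₀, D.σz]
    ring
  have hz3 : (ι D.z) ^ 3 = 1 := by rw [← map_pow, D.hz3, map_one]
  have hz1 : (ι D.z) ^ 2 + ι D.z + 1 = 0 := by
    rw [← map_pow, ← map_add, ← map_one ι, ← map_add, D.hz, map_zero]
  set Θ : AlgebraicClosure (v.adicCompletion K) := algebraMap _ _ θ with hΘ
  have hΘ3 : Θ ^ 3 = 2 := by rw [hΘ, ← map_pow, hθ, map_ofNat]
  obtain ⟨s, hsΘ⟩ : ∃ s : Gal K, ι (s D.ρ) = Θ := by
    have h1 : (ι D.ρ) ^ 3 = 2 := by rw [← map_pow, D.hρ, map_ofNat]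
    have h4 : (ι D.ρ - Θ) * ((ι D.ρ - ι D.z * Θ) * (ι D.ρ - (ι D.z) ^ 2 * Θ)) = 0 := by
      linear_combination h1 - ((ι D.z) ^ 3) * hΘ3 - 2 * hz3 - ((ι D.ρ) ^ 2 * Θ) * hz1 +
        (ι D.ρ * Θ ^ 2 * ι D.z) * hz1
    rcases mul_eq_zero.1 h4 with h | h
    · exact ⟨1, sub_eq_zero.1 h⟩
    rcases mul_eq_zero.1 h with h | h
    · refine ⟨s₀ * s₀, ?_⟩
      rw [hss, map_mul, map_pow, sub_eq_zero.1 h]
      linear_combination Θ * hz3
    · refine ⟨s₀, ?_⟩
      rw [hs₀, map_mul, sub_eq_zero.1 h]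
      linear_combination Θ * hz3
  obtain ⟨z, hz, hfix⟩ := hs s
  obtain ⟨z₀, hz₀⟩ := fixm (k := v.adicCompletion K) z (fun τ => hfix τ (by
    rw [hsΘ, hΘ]; exact τ.commutes θ))
  refine ⟨z₀, ?_⟩
  apply (algebraMap (v.adicCompletion K) (AlgebraicClosure (v.adicCompletion K))).injective
  rw [map_pow, hz₀, hz, hwδ, map_mul]
  congr 1
  · rw [hsΘ]
    simp only [rt]
    rw [map_add, map_mul, map_mul, map_ofNat, ← IsScalarTower.algebraMap_apply]
    ring
  · rw [Cb.hom_apply, D.em_apply, map_add, map_add, map_add, map_add, map_add, map_add, map_mul,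
      map_mul, map_mul, map_mul, map_mul, map_mul, map_pow, map_pow, map_pow, AlgEquiv.commutes,
      AlgEquiv.commutes, AlgEquiv.commutes, ι.commutes, ι.commutes, ι.commutes, hsΘ]
    rfl

/-- the factor does not vanish -/
lemma fac_ne {L : Type} [Field L] {x y t θ : L} (hθ : θ ^ 3 = 2) (hy : y ≠ 0)
    (hxy : y ^ 2 = x ^ 3 + 16 * t ^ 3) : x + 2 * t * θ ≠ 0 := by
  intro h
  apply pow_ne_zero 2 hy
  have hfac : (x + 2 * t * θ) * (x ^ 2 - 2 * t * θ * x + 4 * t ^ 2 * θ ^ 2) = y ^ 2 := by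
    rw [hxy]
    linear_combination 8 * t ^ 3 * hθ
  rw [← hfac, h, zero_mul]

/-- parities -/
lemma par_move {L : Type} [Field L] {ν : Valuation L ℤᵐ⁰} {z a b c : L} (hz : z ^ 2 = a * b)
    (ha : a ≠ 0) (hb : b ≠ 0) (h : ∃ m : ℤ, ν a * ν c = exp (2 * m)) :
    ∃ m : ℤ, ν (b * c) = exp (2 * m) := by
  obtain ⟨m, hm⟩ := h
  obtain ⟨k, hk⟩ := exp_rep ((ν.ne_zero_iff).2 ha)
  obtain ⟨l, hl⟩ := exp_rep ((ν.ne_zero_iff).2 hb)
  have hz0 : z ≠ 0 := by
    rintro rfl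
    rw [zero_pow two_ne_zero] at hz
    exact mul_ne_zero ha hb hz.symm
  obtain ⟨j, hj⟩ := exp_rep ((ν.ne_zero_iff).2 hz0)
  have h4 := congrArg ν hz
  rw [map_pow, map_mul, hk, hl, hj, ← exp_nsmul, ← exp_add] at h4
  have h5 := exp_injective h4
  simp only [nsmul_eq_mul] at h5
  push_cast at h5
  have hc : ν c ≠ 0 := by
    intro h0
    rw [h0, mul_zero] at hm
    exact exp_ne_zero hm.symm
  obtain ⟨i, hi⟩ := exp_rep hc
  rw [hk, hi, ← exp_add] at hm
  have h6 := exp_injective hm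
  rw [map_mul, hl, hi, ← exp_add]
  exact ⟨j + m - k, by congr 1; omega⟩

end pl

end Pool.Agent.H98.V
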