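import Pool.Agent.H98.V.Sh

/-!
# The 2-Selmer group of `y² = x³ + 16 d³`
-/

set_option autoImplicit false
set_option linter.unusedSectionVars false
set_option linter.unusedVariables false

namespace Pool.Agent.H98.V

open WeierstrassCurve IsDedekindDomain NumberField WithZero
open scoped Classical
open Pool.Agent.Y696
open Pool.Agent.TH841.SH.D
open Pool.Agent.TH841.SH (IsR IsX gf not_isX isX_some isX_zero)
open Pool.Agent.K7.H70.TW (Ed)
open Pool.Agent.K7.H70.SM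
open Pool.Agent.H98.Q
open Pool.Agent.H98.A (val_one)
open Pool.Agent.H98.R (vd vd_d vd_two vd_three val_d no2 ev_good ev_big lv_two small_root
  v_root w3 w6 mul_root)

section
variable {K : Type} [Field K] [NumberField K] {d : ℤ}

lemma v23 {v : HeightOneSpectrum (𝓞 K)} (hv : ((6 : ℕ) : 𝓞 K) ∉ v.asIdeal) :
    v.valuation K 2 = 1 ∧ v.valuation K 3 = 1 := by
  constructor
  · have : v.valuation K ((2 : ℕ) : K) = 1 := val_one fun h => hv (by
      have e : ((6 : ℕ) : 𝓞 K) = ((2 : ℕ) : 𝓞 K) * 3 := by push_cast; norm_num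
      rw [e]
      exact Ideal.mul_mem_right _ _ h)
    exact_mod_cast this
  · have : v.valuation K ((3 : ℕ) : K) = 1 := val_one fun h => hv (by
      have e : ((6 : ℕ) : 𝓞 K) = ((3 : ℕ) : 𝓞 K) * 2 := by push_cast; norm_num
      rw [e]
      exact Ideal.mul_mem_right _ _ h)
    exact_mod_cast this

lemma bcK_nons (hd0 : (d : K) ≠ 0) {x y : K} (h : y ^ 2 = x ^ 3 + 16 * (d : K) ^ 3) :
    ((Ed (d : K)).baseChange K).toAffine.Nonsingular x y := by
  have : NeZero (d : K) := ⟨hd0⟩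
  have h1 := Pool.Agent.H98.R.ns_of h
  have e : (Ed (d : K)).baseChange K = Ed (d : K) := WeierstrassCurve.map_id _
  rw [e]
  exact h1

/-- no elements of order two -/
lemma no_tor' (hK : Gz K) (hd : Dd d) (T : Pt (Ed (d : K)) K) (h : T + T = 0) : T = 0 := by
  obtain ⟨D⟩ := hK.exists_RD
  have hd0 : (d : K) ≠ 0 := d_neF hd
  rcases pt_cases T with rfl | ⟨x, y, hn, rfl⟩
  · rfl
  · exfalso
    have h1 := congrArg (act (Ed (d : K)) (Algebra.ofId K (AlgebraicClosure K))) h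
    rw [map_add, map_zero, act_mk] at h1
    have h2 := (mk_add_self (RDisR D (t := (d : K))) two_ne_zero _).1 h1
    have h3 : y = 0 := (map_eq_zero (algebraMap K (AlgebraicClosure K))).1 h2
    have h4 := (Affine.equation_iff _ _).1 hn.1
    rw [bc_a₁, bc_a₂, bc_a₃, bc_a₄, bc_a₆] at h4
    refine no2 hK hd (a := x) (b := y) ?_ h3
    have e : algebraMap K K (d : K) = (d : K) := rfl
    rw [e] at h4
    linear_combination h4

/-- **locally trivial cocycles killed by two** -/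
theorem sel (hK : Gz K) (hd : Dd d) (hp : Pd d K) {x₀ y₀ : K}
    (h₀ : y₀ ^ 2 = x₀ ^ 3 + 16 * (d : K) ^ 3) (hx₀ : vd hd hp x₀ < 1)
    {f : Coch (Ed (d : K))} (hf : IsCoc (Ed (d : K)) f) (h2 : ∀ σ, f σ + f σ = 0)
    (hloc : ∀ v : HeightOneSpectrum (𝓞 K), LocTriv (Ed (d : K)) (v.adicCompletion K) f) :
    IsCob (Ed (d : K)) f := by
  have hd0 : (d : K) ≠ 0 := d_neF hd
  have hy₀ : y₀ ≠ 0 := no2 hK hd h₀
  obtain ⟨D⟩ := hK.exists_RD
  have hS : ∃ S : Pt (Ed (d : K)) K, (S + S) + (S + S) ≠ 0 := by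
    refine ⟨mkp (bcK_nons hd0 h₀), fun h => ?_⟩
    have h1 := no_tor' hK hd _ (no_tor' hK hd _ h)
    exact Affine.Point.some_ne_zero _ h1
  obtain ⟨δ, w, hw0, hwδ, hw, ⟨r, hr⟩, hN, hsq⟩ := glo D hd0 hf h2
  have hodd2 : ∀ {v : HeightOneSpectrum (𝓞 K)}, ((2 : ℕ) : 𝓞 K) ∈ v.asIdeal →
      v.valuation K (d : K) = 1 := by
    intro v hv
    refine val_d fun h => ?_
    obtain ⟨m, hm⟩ := hd.odd
    apply v.isPrime.ne_top
    rw [Ideal.eq_top_iff_one]
    have e : (1 : 𝓞 K) = (d : 𝓞 K) - ((2 : ℕ) : 𝓞 K) * (2 * m) := by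
      rw [hm]
      push_cast
      ring
    rw [e]
    exact Ideal.sub_mem _ h (Ideal.mul_mem_right _ _ hv)
  -- even at a root
  have hroot : ∀ {v : HeightOneSpectrum (𝓞 K)} {x θ : v.adicCompletion K} (hθ : θ ^ 3 = 2),
      EvV (Valued.v : Valuation (v.adicCompletion K) ℤᵐ⁰)
        ⟨x, 2 * algebraMap K (v.adicCompletion K) (d : K), 0⟩ → ∃ m : ℤ,
      (Valued.v : Valuation (v.adicCompletion K) ℤᵐ⁰)
        (x + 2 * algebraMap K (v.adicCompletion K) (d : K) * θ) = exp (2 * m) := by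
    intro v x θ hθ ⟨n, hn⟩
    obtain ⟨m, hm⟩ := hn θ (by rw [hθ, sub_self, map_zero]; exact zero_le)
    refine ⟨m, ?_⟩
    rw [← hm]
    congr 1
    simp only [Cb.ev]
    ring
  have hne : ∀ {v : HeightOneSpectrum (𝓞 K)} {θ : v.adicCompletion K} (hθ : θ ^ 3 = 2),
      Cb.hom _ (algebraMap K (v.adicCompletion K)) θ hθ δ ≠ 0 := by
    intro v θ hθ h0
    have h4 : Cb.hom _ (algebraMap K (v.adicCompletion K)) θ hθ (δ * δ.adj) = 0 := by
      rw [map_mul, h0, zero_mul]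
    rw [Cb.mul_adj, Cb.hom_apply] at h4
    simp only [Cb.C_a, Cb.C_b, Cb.C_c, map_zero, zero_mul, add_zero] at h4
    exact hN ((map_eq_zero _).1 h4)
  -- away from `6 d`
  have hev : ∀ v : HeightOneSpectrum (𝓞 K), ((6 : ℕ) : 𝓞 K) ∉ v.asIdeal →
      (d : 𝓞 K) ∉ v.asIdeal → EvV (v.valuation K) δ := by
    intro v hv hdv
    obtain ⟨e2, e3⟩ := v23 hv
    obtain ⟨x, y, hy, hxy, hz⟩ := roots D hd0 hf h2 hwδ hw v (hloc v) hS
    have hνK : ∀ a : K, (Valued.v : Valuation (v.adicCompletion K) ℤᵐ⁰) (algebraMap K _ a) =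
        v.valuation K a := fun a => HeightOneSpectrum.valuedAdicCompletion_eq_valuation' v a
    have hν2 : (Valued.v : Valuation (v.adicCompletion K) ℤᵐ⁰) 2 = 1 := by
      rw [← e2, ← hνK, map_ofNat (algebraMap K (v.adicCompletion K)) 2]
    have hν3 : (Valued.v : Valuation (v.adicCompletion K) ℤᵐ⁰) 3 = 1 := by
      rw [← e3, ← hνK, map_ofNat (algebraMap K (v.adicCompletion K)) 3]
    have hνd : (Valued.v : Valuation (v.adicCompletion K) ℤᵐ⁰)
        (algebraMap K (v.adicCompletion K) (d : K)) = 1 := by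
      rw [hνK, val_d hdv]
    refine ev_of_roots e2 e3 D.hω fun θ hθ => ?_
    obtain ⟨z, hz⟩ := hz θ hθ
    obtain ⟨m, hm⟩ := hroot hθ (ev_good hxy hy hν2 hν3 hνd)
    have h6 := par_move (ν := (Valued.v : Valuation (v.adicCompletion K) ℤᵐ⁰)) (c := 1) hz
      (fac_ne hθ hy hxy) (hne hθ) ⟨m, by rw [map_one, mul_one, hm]⟩
    rwa [mul_one] at h6
  -- at `d`
  obtain ⟨κ, hκ, hEv⟩ : ∃ κ : Cb K, (κ = 1 ∨ ∃ x' : K, y₀ ^ 2 = x' ^ 3 + 16 * (d : K) ^ 3 ∧
      vd hd hp x' < 1 ∧ κ = ⟨x', 2 * d, 0⟩) ∧ EvV (vd hd hp) (δ * κ) := by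
    set v := pd hd hp with hv
    have e2 := vd_two hd hp
    have e3 := vd_three hd hp
    have e5 := vd_d hd hp
    obtain ⟨x, y, hy, hxy, hz⟩ := roots D hd0 hf h2 hwδ hw v (hloc v) hS
    have hνK : ∀ a : K, (Valued.v : Valuation (v.adicCompletion K) ℤᵐ⁰) (algebraMap K _ a) =
        v.valuation K a := fun a => HeightOneSpectrum.valuedAdicCompletion_eq_valuation' v a
    have hν2 : (Valued.v : Valuation (v.adicCompletion K) ℤᵐ⁰) 2 = 1 := by
      rw [← e2, ← hνK, map_ofNat (algebraMap K (v.adicCompletion K)) 2]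
    have hν3 : (Valued.v : Valuation (v.adicCompletion K) ℤᵐ⁰) 3 = 1 := by
      rw [← e3, ← hνK, map_ofNat (algebraMap K (v.adicCompletion K)) 3]
    have hνd : (Valued.v : Valuation (v.adicCompletion K) ℤᵐ⁰)
        (algebraMap K (v.adicCompletion K) (d : K)) = exp (-1 : ℤ) := by
      rw [hνK]
      exact e5
    rcases lt_or_ge ((Valued.v : Valuation (v.adicCompletion K) ℤᵐ⁰) x) 1 with hx | hx
    · -- the small case
      have hmove : ∀ x' : K, y₀ ^ 2 = x' ^ 3 + 16 * (d : K) ^ 3 → vd hd hp x' < 1 →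
          (Valued.v : Valuation (v.adicCompletion K) ℤᵐ⁰) (x - algebraMap K _ x') ≤
            exp (-2 : ℤ) → EvV (vd hd hp) (δ * ⟨x', 2 * d, 0⟩) := by
        intro x' hx' hvx' hxx
        refine ev_of_roots (v := v) e2 e3 D.hω fun θ hθ => ?_
        obtain ⟨z, hz⟩ := hz θ hθ
        have hxy' : (algebraMap K (v.adicCompletion K) y₀) ^ 2 =
            (algebraMap K (v.adicCompletion K) x') ^ 3 +
              16 * (algebraMap K (v.adicCompletion K) (d : K)) ^ 3 := by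
          rw [← map_pow, hx', map_add, map_mul, map_pow, map_pow, map_ofNat]
        have hvx'' : (Valued.v : Valuation (v.adicCompletion K) ℤᵐ⁰) (algebraMap K _ x') < 1 := by
          rw [hνK]
          exact hvx'
        have h5 := par_eq hνd hν2 hν3 hθ hy hxy hx ((map_ne_zero _).2 hy₀) hxy' hvx'' hxx
        have h6 := par_move hz (fac_ne hθ hy hxy) (hne hθ) h5
        rw [map_mul]
        convert h6 using 5
        rw [Cb.hom_apply]
        simp only [map_zero]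
        rw [map_mul, map_ofNat]
        ring
      have h₀' : (algebraMap K (v.adicCompletion K) y₀) ^ 2 =
          (algebraMap K (v.adicCompletion K) x₀) ^ 3 +
            16 * (algebraMap K (v.adicCompletion K) (d : K)) ^ 3 := by
        rw [← map_pow, h₀, map_add, map_mul, map_pow, map_pow, map_ofNat]
      have hx₀' : (Valued.v : Valuation (v.adicCompletion K) ℤᵐ⁰) (algebraMap K _ x₀) < 1 := by
        rw [hνK]
        exact hx₀
      have hω : (algebraMap K (v.adicCompletion K) D.ω) ^ 2 +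
          algebraMap K (v.adicCompletion K) D.ω + 1 = 0 := by
        rw [← map_pow, ← map_add, ← map_one (algebraMap K (v.adicCompletion K)), ← map_add, D.hω,
          map_zero]
      rcases small_root hνd hν2 hω hxy hx h₀' hx₀' with h | h | h
      · exact ⟨_, Or.inr ⟨x₀, h₀, hx₀, rfl⟩, hmove x₀ h₀ hx₀ h⟩
      · have h1 : y₀ ^ 2 = (D.ω * x₀) ^ 3 + 16 * (d : K) ^ 3 := mul_root h₀ (w3 D.hω)
        have h3 : vd hd hp (D.ω * x₀) < 1 := by rwa [v_root (w3 D.hω)]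
        exact ⟨_, Or.inr ⟨_, h1, h3, rfl⟩, hmove _ h1 h3 (by rw [map_mul]; exact h)⟩
      · have h1 : y₀ ^ 2 = (D.ω ^ 2 * x₀) ^ 3 + 16 * (d : K) ^ 3 := mul_root h₀ (w6 D.hω)
        have h3 : vd hd hp (D.ω ^ 2 * x₀) < 1 := by rwa [v_root (w6 D.hω)]
        exact ⟨_, Or.inr ⟨_, h1, h3, rfl⟩, hmove _ h1 h3 (by rw [map_mul, map_pow]; exact h)⟩
    · -- the big case
      refine ⟨1, Or.inl rfl, ?_⟩
      rw [mul_one]
      refine ev_of_roots (v := v) e2 e3 D.hω fun θ hθ => ?_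
      obtain ⟨z, hz⟩ := hz θ hθ
      have hνd' : (Valued.v : Valuation (v.adicCompletion K) ℤᵐ⁰)
          (algebraMap K (v.adicCompletion K) (d : K)) < 1 := by
        rw [hνd, ← exp_zero, exp_lt_exp]
        norm_num
      obtain ⟨m, hm⟩ := hroot hθ (ev_big hxy hν2 hνd' hx)
      have h6 := par_move (ν := (Valued.v : Valuation (v.adicCompletion K) ℤᵐ⁰)) (c := 1) hz
        (fac_ne hθ hy hxy) (hne hθ) ⟨m, by rw [map_one, mul_one, hm]⟩
      rwa [mul_one] at h6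
  -- the product is a square
  have hκN : κ.N ≠ 0 ∧ ∃ s, κ.N = s ^ 2 := by
    rcases hκ with rfl | ⟨x', hx', -, rfl⟩
    · exact ⟨by simp, 1, by simp⟩
    · have e : (⟨x', 2 * d, 0⟩ : Cb K).N = y₀ ^ 2 := by
        rw [hx']
        simp [Cb.N]
        ring
      exact ⟨by rw [e]; exact pow_ne_zero 2 hy₀, y₀, e⟩
  have hsquare : IsSquare (δ * κ) := by
    refine hK.sq _ ⟨by rw [Cb.N_mul]; exact mul_ne_zero hN hκN.1, ?_, fun v hv => ?_, fun v hv => ?_⟩
    · obtain ⟨s, hs⟩ := hκN.2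
      exact ⟨r * s, by rw [Cb.N_mul, hr, hs]; ring⟩
    · by_cases h : (d : 𝓞 K) ∈ v.asIdeal
      · have hv5 := pd_uniq hd hp h
        subst hv5
        exact hEv
      · refine EvV.mul hN hκN.1 (hev v hv h) ?_
        obtain ⟨e2, e3⟩ := v23 hv
        rcases hκ with rfl | ⟨x', hx', -, rfl⟩
        · exact EvV.one _
        · exact ev_good hx' hy₀ e2 e3 (val_d h)
    · have hv2 := hK.two v hv
      refine LvV.mul (by rw [hv2, ← exp_zero, exp_lt_exp]; norm_num)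
        (lvt D hd0 hf h2 hwδ hw hv2 (hodd2 hv) (hloc v) hS hN) ?_
      rcases hκ with rfl | ⟨x', hx', -, rfl⟩
      · exact LvV.one _
      · exact lv_two hx' hy₀ hv2 (hodd2 hv)
  rcases hκ with rfl | ⟨x', hx', -, rfl⟩
  · rw [mul_one] at hsquare
    obtain ⟨T, -, hT⟩ := hsq hsquare
    exact ⟨T, hT⟩
  · exact kum D hd0 hf h2 hw0 hwδ hw hx' hy₀ hsquare

/-- halving over the closure -/
lemma halve_t (hK : Gz K) (hd0 : (d : K) ≠ 0) (Q : Pt (Ed (d : K)) (AlgebraicClosure K)) :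
    ∃ Q', Q = Q' + Q' := by
  obtain ⟨D⟩ := hK.exists_RD
  exact mk_halve (RDisR D) two_ne_zero (trt_ne (K := K) hd0 D.n1) (trt_ne (K := K) hd0 D.n2)
    (trt_ne (K := K) hd0 D.n3) Q

/-- **no element of order two in the Tate-Shafarevich group** -/
theorem sha_two (hK : Gz K) (hd : Dd d) (hp : Pd d K) {x₀ y₀ : K}
    (h₀ : y₀ ^ 2 = x₀ ^ 3 + 16 * (d : K) ^ 3) (hx₀ : vd hd hp x₀ < 1)
    (x : Pool.Agent.TH841.NF.D.Sha (Ed (d : K))) (hx : x + x = 0) : x = 0 := by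
  have hd0 : (d : K) ≠ 0 := d_neF hd
  obtain ⟨⟨f, hf⟩, rfl⟩ := QuotientAddGroup.mk_surjective x
  have h1 : (⟨f, hf⟩ + ⟨f, hf⟩ : Pool.Agent.TH841.NF.D.shaCoc (Ed (d : K))) ∈
      (cob (Ed (d : K))).addSubgroupOf (Pool.Agent.TH841.NF.D.shaCoc (Ed (d : K))) := by
    rw [← QuotientAddGroup.eq_zero_iff]
    exact hx
  obtain ⟨Q, hQ⟩ : IsCob (Ed (d : K)) (f + f) := h1
  obtain ⟨Q', hQ'⟩ := halve_t hK hd0 Q
  have hf' : Pool.Agent.TH841.NF.D.IsShaCoc (Ed (d : K)) f := hf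
  let b : Coch (Ed (d : K)) := fun σ : Gal K => act (Ed (d : K)) σ.toAlgHom Q' - Q'
  let g : Coch (Ed (d : K)) := f - b
  have hgσ : ∀ σ, g σ = f σ - (act (Ed (d : K)) σ.toAlgHom Q' - Q') := fun σ => rfl
  have hgc : IsCoc (Ed (d : K)) g := by
    have h7 := coc_add hf'.1 (coc_neg (coc_of_pt (Ed (d : K)) Q'))
    have h8 : g = f + -b := by
      funext σ
      exact sub_eq_add_neg _ _
    rw [h8]
    exact h7
  have hg2 : ∀ σ, g σ + g σ = 0 := by
    intro σ
    have h3 : f σ + f σ = act (Ed (d : K)) σ.toAlgHom Q - Q := hQ σ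
    rw [hgσ]
    have e : f σ - (act (Ed (d : K)) σ.toAlgHom Q' - Q') +
        (f σ - (act (Ed (d : K)) σ.toAlgHom Q' - Q')) =
        (f σ + f σ) - ((act (Ed (d : K)) σ.toAlgHom Q' + act (Ed (d : K)) σ.toAlgHom Q') -
          (Q' + Q')) := by
      abel
    rw [e, h3, ← map_add, ← hQ', sub_self]
  have hgl : ∀ v : HeightOneSpectrum (𝓞 K), LocTriv (Ed (d : K)) (v.adicCompletion K) g := by
    intro v ι
    obtain ⟨P, hP⟩ := hf'.2.1 v ι
    refine ⟨P - act (Ed (d : K)) ι Q', fun τ σ h => ?_⟩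
    have h3 := hP τ σ h
    have h4 : act (Ed (d : K)) ι (act (Ed (d : K)) σ.toAlgHom Q') =
        act (Ed (d : K)) (τ.toAlgHom.restrictScalars K) (act (Ed (d : K)) ι Q') := by
      rw [act_act, act_act]
      congr 2
      ext z
      exact (h z).symm
    rw [hgσ, map_sub, map_sub, map_sub, h3, h4]
    abel
  obtain ⟨T, h⟩ := sel hK hd hp h₀ hx₀ hgc hg2 hgl
  refine (QuotientAddGroup.eq_zero_iff
    (⟨f, hf⟩ : Pool.Agent.TH841.NF.D.shaCoc (Ed (d : K)))).2 ?_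
  change IsCob (Ed (d : K)) f
  refine ⟨T + Q', fun σ => ?_⟩
  have h5 := h σ
  rw [hgσ] at h5
  have h6 : f σ = (act (Ed (d : K)) σ.toAlgHom T - T) + (act (Ed (d : K)) σ.toAlgHom Q' - Q') := by
    rw [← h5]; abel
  rw [h6, map_add]
  abel

end

end Pool.Agent.H98.V
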