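import Pool.Agent.H98.V.Pl

/-!
# The 2-part of the Tate-Shafarevich group of `y² = x³ + 16 d³`
-/

set_option autoImplicit false
set_option linter.unusedSectionVars false
set_option linter.unusedVariables false

namespace Pool.Agent.H98.V

open WeierstrassCurve IsDedekindDomain NumberField WithZero
open scoped Classical
open Pool.Agent.Y696
open Pool.Agent.TH841.SH.D
open Pool.Agent.TH841.SH (IsR IsX gf not_isX isX_some isX_zero)
open Pool.Agent.K7.H70.TW (Ed)
open Pool.Agent.K7.H70.SM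
open Pool.Agent.H98.Q
open Pool.Agent.H98.A (val_one)
open Pool.Agent.H98.R (vd vd_d vd_two vd_three val_d no2 ev_good ev_big lv_two small_root
  v_root w3 w6)

section two
variable {K : Type} [Field K] [NumberField K] (D : RD K) {t : K}

/-- the condition at two -/
theorem lvt (ht : t ≠ 0) {f : Coch (Ed t)} (hf : IsCoc (Ed t) f) (h2 : ∀ σ, f σ + f σ = 0)
    {w : AlgebraicClosure K} {δ : Cb K} (hwδ : w ^ 2 = D.em δ) (hw : Sg t D.ρ w f)
    {v : HeightOneSpectrum (𝓞 K)} (hv : v.valuation K 2 = exp (-1 : ℤ))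
    (hvt : v.valuation K t = 1) (hloc : LocTriv (Ed t) (v.adicCompletion K) f)
    (hS : ∃ S : Pt (Ed t) K, (S + S) + (S + S) ≠ 0) (hδ : δ.N ≠ 0) :
    LvV (v.valuation K) δ := by
  have hinj := (algebraMap K (v.adicCompletion K)).injective
  have : CharZero (v.adicCompletion K) := charZero_of_injective_algebraMap hinj
  set ν : Valuation (v.adicCompletion K) ℤᵐ⁰ := Valued.v with hν
  have hνK : ∀ a : K, ν (algebraMap K _ a) = v.valuation K a := fun a =>
    HeightOneSpectrum.valuedAdicCompletion_eq_valuation' v a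
  have hν2 : ν 2 = exp (-1 : ℤ) := by
    rw [← hv, ← hνK, map_ofNat (algebraMap K (v.adicCompletion K)) 2]
  have hνt : ν (algebraMap K (v.adicCompletion K) t) = 1 := by rw [hνK, hvt]
  obtain ⟨ι⟩ : Nonempty (AlgebraicClosure K →ₐ[K] AlgebraicClosure (v.adicCompletion K)) :=
    ⟨IsAlgClosed.lift⟩
  obtain ⟨x, y, hy, hxy, hs⟩ := locAll D ht hf h2 hw hloc hS ι
  obtain ⟨z, hz, hfix⟩ := hs 1
  rw [AlgEquiv.one_apply, AlgEquiv.one_apply] at hz
  simp only [AlgEquiv.one_apply] at hfix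
  have hρ' : (ι D.ρ) ^ 3 = 2 := by rw [← map_pow, D.hρ, map_ofNat]
  obtain ⟨Z, hZ⟩ := stabm (k := v.adicCompletion K) hρ' hfix
  -- there is no cube root of two
  have h3 : ∀ a : v.adicCompletion K, a ^ 3 ≠ 2 := by
    intro a ha
    have h4 := congrArg ν ha
    have ha0 : a ≠ 0 := by
      rintro rfl
      rw [hν2, map_pow, map_zero] at h4
      exact exp_ne_zero (by rw [← h4]; simp)
    obtain ⟨m, hm⟩ : ∃ m : ℤ, ν a = exp m := ⟨_, (exp_log ((ν.ne_zero_iff).2 ha0)).symm⟩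
    rw [map_pow, hm, hν2, ← exp_nsmul] at h4
    have h5 := exp_injective h4
    simp only [nsmul_eq_mul] at h5
    push_cast at h5
    omega
  have hinj2 : Function.Injective (Cb.hom (AlgebraicClosure (v.adicCompletion K))
      (algebraMap (v.adicCompletion K) _) (ι D.ρ) hρ') := by
    let _ : Field (Cb (v.adicCompletion K)) := Cb.fld h3
    exact (Cb.hom (AlgebraicClosure (v.adicCompletion K))
      (algebraMap (v.adicCompletion K) _) (ι D.ρ) hρ').injective
  set δ' := Cb.map (algebraMap K (v.adicCompletion K)) δ with hδ'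
  set t' := algebraMap K (v.adicCompletion K) t with ht'
  have key : Z ^ 2 = ⟨x, 2 * t', 0⟩ * δ' := by
    apply hinj2
    rw [map_pow, map_mul, hZ, hz, hwδ]
    congr 1
    · rw [Cb.hom_apply]
      simp only [rt]
      rw [map_zero, map_mul, map_ofNat, ht', ← IsScalarTower.algebraMap_apply]
      ring
    · rw [hδ', Cb.hom_apply, D.em_apply]
      simp only [Cb.map_a', Cb.map_b', Cb.map_c']
      rw [map_add, map_add, map_mul, map_mul, map_pow, ι.commutes, ι.commutes, ι.commutes]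
      rfl
  have hqN : (⟨x, 2 * t', 0⟩ : Cb (v.adicCompletion K)).N ≠ 0 := by
    have : (⟨x, 2 * t', 0⟩ : Cb (v.adicCompletion K)).N = y ^ 2 := by
      rw [hxy, Cb.N]; ring
    rw [this]
    exact pow_ne_zero 2 hy
  have hδN : δ'.N ≠ 0 := by
    rw [hδ', Cb.N_map]
    exact (map_ne_zero _).2 hδ
  have hZN : Z.N ≠ 0 := by
    intro h
    have h4 := congrArg Cb.N key
    rw [pow_two, Cb.N_mul, Cb.N_mul, h, mul_zero] at h4
    exact mul_ne_zero hqN hδN h4.symm
  have hν2' : ν 2 < 1 := by rw [hν2, ← exp_zero, exp_lt_exp]; omega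
  obtain ⟨q', hq', hqq⟩ := Cb_inv hqN
  have hL : LvV ν δ' := by
    have e : δ' = (Z ^ 2 * ⟨x, 2 * t', 0⟩) * q' ^ 2 := by
      rw [key]
      linear_combination (-δ' * (⟨x, 2 * t', 0⟩ * q' + 1)) * hqq
    rw [e]
    exact ((LvV.sq ν hZN).mul hν2' (lv_two hxy hy hν2 hνt)).mul hν2' (LvV.sq ν hq')
  exact LvV.desc hν2 (algebraMap K (v.adicCompletion K)) hνK (Cb.ne_of_N hδ) hL

end two

section kum
variable {K : Type} [Field K] [CharZero K] (D : RD K) {t : K}

/-- **a class which agrees with the class of a rational point** -/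
theorem kum (ht : t ≠ 0) {f : Coch (Ed t)} (hf : IsCoc (Ed t) f) (h2 : ∀ σ, f σ + f σ = 0)
    {w : AlgebraicClosure K} {δ : Cb K} (hw0 : w ≠ 0) (hwδ : w ^ 2 = D.em δ) (hw : Sg t D.ρ w f)
    {x' y' : K} (hxy : y' ^ 2 = x' ^ 3 + 16 * t ^ 3) (hy' : y' ≠ 0)
    (hsq : IsSquare (δ * ⟨x', 2 * t, 0⟩)) : IsCob (Ed t) f := by
  have hR := RDisR D (t := t)
  have h20 : (2 : AlgebraicClosure K) ≠ 0 := two_ne_zero
  have n1 := trt_ne (K := K) ht D.n1
  have n2 := trt_ne (K := K) ht D.n2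
  have n3 := trt_ne (K := K) ht D.n3
  -- the point over the closure
  have hn : ((Ed t).baseChange (AlgebraicClosure K)).toAffine.Nonsingular
      (algebraMap K _ x') (algebraMap K _ y') := by
    refine hR.nons h20 n1 n2 n3 ?_
    have e := (hR.eqn (algebraMap K _ x') (algebraMap K _ y')).1
    rw [← map_pow, hxy, map_add, map_mul, map_pow, map_pow, map_ofNat]
    have h3 := D.hz3
    simp only [rt]
    linear_combination (-(2 * (algebraMap K _ x') ^ 2 * D.ρ * algebraMap K _ t +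
      4 * algebraMap K _ x' * D.ρ ^ 2 * D.z * (algebraMap K _ t) ^ 2)) * D.hz -
      (8 * D.z ^ 3 * (algebraMap K _ t) ^ 3) * D.hρ - 16 * (algebraMap K _ t) ^ 3 * h3
  obtain ⟨Q, hQ⟩ := mk_halve hR h20 n1 n2 n3 (mkp hn)
  have hPfix : ∀ σ : Gal K, act (Ed t) σ.toAlgHom (mkp hn) = mkp hn := fun σ =>
    mk_ext.2 ⟨AlgHom.commutes _ _, AlgHom.commutes _ _⟩
  obtain ⟨u, v, hu, rfl⟩ : ∃ (u v : AlgebraicClosure K)
      (hu : ((Ed t).baseChange (AlgebraicClosure K)).toAffine.Nonsingular u v), Q = mkp hu := by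
    rcases pt_cases Q with rfl | h
    · rw [add_zero] at hQ
      exact absurd hQ (Affine.Point.some_ne_zero _)
    · exact h
  have hv : v ≠ 0 := by
    intro hv
    rw [(mk_add_self hR h20 hu).2 hv] at hQ
    exact absurd hQ (Affine.Point.some_ne_zero _)
  obtain ⟨X, Y, hn', e1, hXa⟩ := mk_dup hR h20 hu hv
  rw [e1] at hQ
  obtain ⟨hX, hY⟩ := mk_ext.1 hQ
  set G := gf ((Ed t).baseChange (AlgebraicClosure K)) (algebraMap K _ t * rt D.ρ)
    (algebraMap K _ t * rt (D.z * D.ρ)) (algebraMap K _ t * rt (D.z ^ 2 * D.ρ)) (mkp hu) with hG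
  have hG2 : G ^ 2 = D.em ⟨x', 2 * t, 0⟩ := by
    rw [← hXa, ← hX, D.em_apply]
    simp only [rt]
    rw [map_mul, map_ofNat, map_zero]
    ring
  have hG0 : G ≠ 0 := by
    intro h0
    rw [h0, zero_pow two_ne_zero, D.em_apply] at hG2
    have h5 : (algebraMap K (AlgebraicClosure K) y') ^ 2 = (algebraMap K _ x') ^ 3 +
        16 * (algebraMap K _ t) ^ 3 := by
      rw [← map_pow, hxy, map_add, map_mul, map_pow, map_pow, map_ofNat]
    refine fac_ne D.hρ ((map_ne_zero (algebraMap K (AlgebraicClosure K))).2 hy') h5 ?_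
    rw [hG2]
    simp only
    rw [map_mul, map_ofNat, map_zero]
    ring
  -- the second cocycle
  obtain ⟨T', hT'⟩ : ∃ T' : Gal K → Pt (Ed t) (AlgebraicClosure K), ∀ σ, T' σ =
    act (Ed t) σ.toAlgHom (mkp hu) - mkp hu := ⟨_, fun _ => rfl⟩
  have hT'2 : ∀ σ, T' σ + T' σ = 0 := by
    intro σ
    have e : T' σ + T' σ = (act (Ed t) σ.toAlgHom (mkp hu) + act (Ed t) σ.toAlgHom (mkp hu)) -
        (mkp hu + mkp hu) := by
      rw [hT']
      abel
    rw [e, ← map_add, e1, ← hQ, hPfix, sub_self]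
  have hsgn : ∀ σ : Gal K, σ D.ρ = D.ρ →
      (IsX ((Ed t).baseChange (AlgebraicClosure K)) (algebraMap K _ t * rt D.ρ) (T' σ) → σ G = G) ∧
      (¬ IsX ((Ed t).baseChange (AlgebraicClosure K)) (algebraMap K _ t * rt D.ρ) (T' σ) →
        σ G = -G) := by
    intro σ hσ
    have hz := D.σz σ
    have e2 : σ G = gf ((Ed t).baseChange (AlgebraicClosure K)) (algebraMap K _ t * rt D.ρ)
        (algebraMap K _ t * rt (D.z * D.ρ)) (algebraMap K _ t * rt (D.z ^ 2 * D.ρ))
          (act (Ed t) σ.toAlgHom (mkp hu)) := by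
      have := act_gf (Ed t) σ.toAlgHom (algebraMap K _ t * rt D.ρ)
        (algebraMap K _ t * rt (D.z * D.ρ)) (algebraMap K _ t * rt (D.z ^ 2 * D.ρ)) (mkp hu)
      have r1 : ∀ x : AlgebraicClosure K, σ.toAlgHom (algebraMap K _ t * rt x) =
          algebraMap K _ t * rt (σ x) := fun x => by
        rw [map_mul, AlgHom.commutes]
        exact congrArg _ (map_rt σ.toAlgHom x)
      rw [r1, r1, r1, map_mul, map_mul, map_pow, hσ, hz] at this
      exact this
    have e3 : act (Ed t) σ.toAlgHom (mkp hu) = mkp hu + T' σ := by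
      rw [hT']
      abel
    obtain ⟨u', v', hn'', e4, hv', s1, s2⟩ := mk_sign hR h20 n1 n2 n3 hu hv (hT'2 σ)
    rw [e2, e3, e4]
    exact ⟨fun h => s1 h, fun h => s2 h⟩
  obtain ⟨r, hr⟩ := hsq
  have hprod : ∀ σ : Gal K, σ D.ρ = D.ρ → σ (w * G) = w * G := by
    intro σ hσ
    have h1 : (w * G) ^ 2 = (D.em r) ^ 2 := by
      rw [mul_pow, hwδ, hG2, ← map_mul, hr, map_mul, pow_two]
    have h3 : σ (D.em r) = D.em r := by
      rw [D.em_apply, map_add, map_add, map_mul, map_mul, map_pow, AlgEquiv.commutes,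
        AlgEquiv.commutes, AlgEquiv.commutes, hσ]
    rcases sq_eq_sq_iff_eq_or_eq_neg.1 h1 with h | h
    · rw [h, h3]
    · rw [h, map_neg, h3]
  have hwG : w * G ≠ 0 := mul_ne_zero hw0 hG0
  have hneg : -(w * G) ≠ w * G := by
    intro h
    have h4 : 2 * (w * G) = 0 := by linear_combination -h
    exact hwG ((mul_eq_zero.1 h4).resolve_left h20)
  have hiff : ∀ σ : Gal K, σ D.ρ = D.ρ →
      (IsX ((Ed t).baseChange (AlgebraicClosure K)) (algebraMap K _ t * rt D.ρ) (f σ) ↔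
      IsX ((Ed t).baseChange (AlgebraicClosure K)) (algebraMap K _ t * rt D.ρ) (T' σ)) := by
    intro σ hσ
    have hp := hprod σ hσ
    rw [map_mul] at hp
    by_cases ha : IsX ((Ed t).baseChange (AlgebraicClosure K)) (algebraMap K _ t * rt D.ρ) (f σ)
    · by_cases hb : IsX ((Ed t).baseChange (AlgebraicClosure K)) (algebraMap K _ t * rt D.ρ) (T' σ)
      · exact ⟨fun _ => hb, fun _ => ha⟩
      · rw [hw.1 σ hσ ha, (hsgn σ hσ).2 hb, mul_neg] at hp
        exact absurd hp hneg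
    · by_cases hb : IsX ((Ed t).baseChange (AlgebraicClosure K)) (algebraMap K _ t * rt D.ρ) (T' σ)
      · rw [hw.2 σ hσ ha, (hsgn σ hσ).1 hb, neg_mul] at hp
        exact absurd hp hneg
      · exact ⟨fun h => absurd h ha, fun h => absurd h hb⟩
  -- the difference
  let g : Coch (Ed t) := fun σ => f σ - T' σ
  have hgσ : ∀ σ, g σ = f σ - T' σ := fun _ => rfl
  have hT'n : ∀ σ, -T' σ = T' σ := fun σ => neg_eq_of_add_eq_zero_left (hT'2 σ)
  have hgσ' : ∀ σ, g σ = f σ + T' σ := fun σ => by rw [hgσ, sub_eq_add_neg, hT'n]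
  have hgc : IsCoc (Ed t) g := by
    have h7 := coc_add hf (coc_neg (coc_of_pt (Ed t) (mkp hu)))
    let b : Coch (Ed t) := fun σ : Gal K => act (Ed t) σ.toAlgHom (mkp hu) - mkp hu
    have h8 : g = f + -b := by
      funext σ
      rw [hgσ, hT']
      exact sub_eq_add_neg _ _
    rw [h8]
    exact h7
  have hg2 : ∀ σ, g σ + g σ = 0 := by
    intro σ
    have e : g σ + g σ = (f σ + f σ) + (T' σ + T' σ) := by
      rw [hgσ']
      abel
    rw [e, h2, hT'2, add_zero]
  have hgX : ∀ σ : Gal K, σ D.ρ = D.ρ →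
      IsX ((Ed t).baseChange (AlgebraicClosure K)) (algebraMap K _ t * rt D.ρ) (g σ) := by
    intro σ hσ
    rw [hgσ']
    exact (@IsR.isX_add _ _ _ _ _ _ (Classical.decEq _) hR h20 n1 n2 n3 _ _ (h2 σ) (hT'2 σ)).2
      (hiff σ hσ)
  obtain ⟨δ', w', hw'0, hwδ', hw', -, -, hsq'⟩ := glo D ht hgc hg2
  obtain ⟨r', hr'⟩ := stabm (k := K) D.hρ (z := w') (fun σ hσ => hw'.1 σ hσ (hgX σ hσ))
  have hr'' : D.em r' = w' := hr'
  obtain ⟨T, hT, hTσ⟩ := hsq' ⟨r', D.em_inj (by rw [← hwδ', map_mul, hr'', pow_two])⟩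
  refine ⟨T + mkp hu, fun σ => ?_⟩
  have h5 := hTσ σ
  rw [hgσ] at h5
  have h6 : f σ = (act (Ed t) σ.toAlgHom T - T) + T' σ := by
    rw [← h5]
    abel
  rw [h6, map_add, hT']
  abel

end kum

end Pool.Agent.H98.V
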