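import Pool.Agent.H98.R.Sel
import Pool.Graph.R_seed8.Y696.Lcl3
import Pool.Graph.R_seed8.Y696.Trs
import Pool.Graph.R_seed8.Y700.VC

/-!
# Cocycles with values in the points of order two of `y² = x³ + 16 t³`
-/

set_option autoImplicit false
set_option linter.unusedSectionVars false
set_option linter.unusedVariables false

namespace Pool.Agent.H98.V

open WeierstrassCurve
open scoped Classical
open Pool.Agent.Y696
open Pool.Agent.TH841.SH.D
open Pool.Agent.TH841.SH (IsR IsX gf not_isX isX_some isX_zero)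
open Pool.Agent.K7.H70.TW (Ed)
open Pool.Agent.Y700 (VR)

section rts
variable {K L : Type} [Field K] [Field L] [Algebra K L] {t : K}

lemma bc_a₁ : ((Ed t).baseChange L).a₁ = 0 := map_zero (algebraMap K L)
lemma bc_a₂ : ((Ed t).baseChange L).a₂ = 0 := map_zero (algebraMap K L)
lemma bc_a₃ : ((Ed t).baseChange L).a₃ = 0 := map_zero (algebraMap K L)
lemma bc_a₄ : ((Ed t).baseChange L).a₄ = 0 := map_zero (algebraMap K L)
lemma bc_a₆ : ((Ed t).baseChange L).a₆ = 16 * (algebraMap K L t) ^ 3 := by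
  show algebraMap K L (16 * t ^ 3) = _
  rw [map_mul, map_pow, map_ofNat]

/-- the roots of the cubic of `y² = x³ + 16 t³` -/
lemma isRt {ρ ω : L} (hρ : ρ ^ 3 = 2) (hω : ω ^ 2 + ω + 1 = 0) :
    IsR ((Ed t).baseChange L) (algebraMap K L t * rt ρ) (algebraMap K L t * rt (ω * ρ))
      (algebraMap K L t * rt (ω ^ 2 * ρ)) where
  h1 := bc_a₁
  h2 := by
    rw [bc_a₂, rt, rt, rt]
    linear_combination (-2 * ρ * algebraMap K L t) * hω
  h3 := bc_a₃
  h4 := by
    rw [bc_a₄, rt, rt, rt]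
    linear_combination (-4 * ρ ^ 2 * ω * (algebraMap K L t) ^ 2) * hω
  h6 := by
    rw [bc_a₆, rt, rt, rt]
    have h3 : ω ^ 3 = 1 := by linear_combination (ω - 1) * hω
    linear_combination (-8 * ω ^ 3 * (algebraMap K L t) ^ 3) * hρ -
      16 * (algebraMap K L t) ^ 3 * h3

lemma trt_ne (ht : t ≠ 0) {x y : L} (h : rt x ≠ rt y) :
    algebraMap K L t * rt x ≠ algebraMap K L t * rt y := fun h' =>
  h (mul_left_cancel₀ ((map_ne_zero (algebraMap K L)).2 ht) h')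

lemma vrt {s : L} (hs : s ^ 2 = algebraMap K L t) (hs0 : s ≠ 0) :
    VR ((Ed t).baseChange L) ((W16 K).baseChange L) s 0 0 0 := by
  have h1 : ((W16 K).baseChange L).a₁ = 0 := map_zero (algebraMap K L)
  have h2 : ((W16 K).baseChange L).a₂ = 0 := map_zero (algebraMap K L)
  have h3 : ((W16 K).baseChange L).a₃ = 0 := map_zero (algebraMap K L)
  have h4 : ((W16 K).baseChange L).a₄ = 0 := map_zero (algebraMap K L)
  have h6 : ((W16 K).baseChange L).a₆ = 16 := map_ofNat (algebraMap K L) 16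
  refine ⟨hs0, ?_, ?_, ?_, ?_, ?_⟩
  · rw [h1, bc_a₁]; ring
  · rw [h2, bc_a₁, bc_a₂]; ring
  · rw [h3, bc_a₁, bc_a₃]; ring
  · rw [h4, bc_a₁, bc_a₂, bc_a₃, bc_a₄]; ring
  · rw [h6, bc_a₁, bc_a₂, bc_a₃, bc_a₄, bc_a₆, ← hs]; ring

lemma W16_Δ [CharZero L] : ((W16 K).baseChange L).Δ ≠ 0 := by
  have h1 : ((W16 K).baseChange L).a₁ = 0 := map_zero (algebraMap K L)
  have h2 : ((W16 K).baseChange L).a₂ = 0 := map_zero (algebraMap K L)
  have h3 : ((W16 K).baseChange L).a₃ = 0 := map_zero (algebraMap K L)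
  have h4 : ((W16 K).baseChange L).a₄ = 0 := map_zero (algebraMap K L)
  have h6 : ((W16 K).baseChange L).a₆ = 16 := map_ofNat (algebraMap K L) 16
  simp only [WeierstrassCurve.Δ, WeierstrassCurve.b₂, WeierstrassCurve.b₄, WeierstrassCurve.b₆,
    WeierstrassCurve.b₈, h1, h2, h3, h4, h6]
  norm_num

/-- the isomorphism with `y² = x³ + 16` over a field with a square root of `t` -/
noncomputable def Th [CharZero L] {s : L} (hs : s ^ 2 = algebraMap K L t) (hs0 : s ≠ 0) :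
    Pt (W16 K) L ≃+ Pt (Ed t) L :=
  @VR.equiv L _ (Classical.decEq L) _ _ _ _ _ _ (vrt hs hs0) W16_Δ

lemma Th_mkp [CharZero L] {s : L} (hs : s ^ 2 = algebraMap K L t) (hs0 : s ≠ 0) {x y : L}
    (h : ((W16 K).baseChange L).toAffine.Nonsingular x y) :
    ∃ h' : ((Ed t).baseChange L).toAffine.Nonsingular (algebraMap K L t * x) (s ^ 3 * y),
      Th hs hs0 (mkp h) = mkp h' := by
  have e1 : s ^ 2 * x + 0 = algebraMap K L t * x := by rw [hs, add_zero]
  have e2 : s ^ 3 * y + s ^ 2 * 0 * x + 0 = s ^ 3 * y := by ring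
  have h1 := Pool.Agent.Y700.nonsing ((vrt hs hs0).delta_ne W16_Δ) ((vrt hs hs0).eqn.2 h.1)
  have h2 : ((Ed t).baseChange L).toAffine.Nonsingular (algebraMap K L t * x) (s ^ 3 * y) := by
    rw [e1, e2] at h1
    exact h1
  refine ⟨h2, ?_⟩
  have h3 : Th hs hs0 (mkp h) = mkp h1 := rfl
  rw [h3]
  exact mk_ext.2 ⟨e1, e2⟩

lemma isX_iff {W : WeierstrassCurve K} {x y e : L} (h : (W.baseChange L).toAffine.Nonsingular x y) :
    IsX (W.baseChange L) e (mkp h) ↔ x = e := by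
  constructor
  · intro h1
    by_contra hne
    exact not_isX h hne h1
  · rintro rfl
    exact isX_some h

lemma Th_isX [CharZero L] (ht : t ≠ 0) {s : L} (hs : s ^ 2 = algebraMap K L t) (hs0 : s ≠ 0)
    {e : L} (T : Pt (W16 K) L) :
    IsX ((Ed t).baseChange L) (algebraMap K L t * e) (Th hs hs0 T) ↔
      IsX ((W16 K).baseChange L) e T := by
  rcases pt_cases T with rfl | ⟨x, y, h, rfl⟩
  · rw [map_zero]
    exact ⟨fun _ => isX_zero _, fun _ => isX_zero _⟩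
  · obtain ⟨h', e1⟩ := Th_mkp (K := K) (t := t) hs hs0 h
    rw [e1, isX_iff, isX_iff]
    constructor
    · intro h2
      exact mul_left_cancel₀ ((map_ne_zero (algebraMap K L)).2 ht) h2
    · rintro rfl
      rfl

lemma Th_act [CharZero L] {s : L} (hs : s ^ 2 = algebraMap K L t) (hs0 : s ≠ 0)
    (φ : L →ₐ[K] L) (T : Pt (W16 K) L)
    (hT : ∀ (x y : L) (h : ((W16 K).baseChange L).toAffine.Nonsingular x y), T = mkp h → y = 0) :
    act (Ed t) φ (Th hs hs0 T) = Th hs hs0 (act (W16 K) φ T) := by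
  rcases pt_cases T with rfl | ⟨x, y, h, rfl⟩
  · rw [map_zero, map_zero, map_zero, map_zero]
  · have hy : y = 0 := hT x y h rfl
    subst hy
    obtain ⟨h1, e1⟩ := Th_mkp (K := K) (t := t) hs hs0 h
    obtain ⟨h2, e2⟩ := Th_mkp (K := K) (t := t) hs hs0
      ((Affine.baseChange_nonsingular (W16 K) φ.injective ..).mpr h)
    rw [e1, act_mk, act_mk, e2]
    refine mk_ext.2 ⟨?_, ?_⟩
    · rw [map_mul, AlgHom.commutes]
    · rw [mul_zero, map_zero, mul_zero]

end rts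

section glo
variable {K : Type} [Field K] [CharZero K] (D : RD K) {t : K}

lemma RDisR : IsR ((Ed t).baseChange (AlgebraicClosure K)) (algebraMap K _ t * rt D.ρ)
    (algebraMap K _ t * rt (D.z * D.ρ)) (algebraMap K _ t * rt (D.z ^ 2 * D.ρ)) :=
  isRt D.hρ D.hz

/-- the sign rules -/
def Sg (t : K) (ρ w : AlgebraicClosure K) (f : Coch (Ed t)) : Prop :=
  (∀ σ : Gal K, σ ρ = ρ →
    IsX ((Ed t).baseChange (AlgebraicClosure K)) (algebraMap K _ t * rt ρ) (f σ) → σ w = w) ∧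
  (∀ σ : Gal K, σ ρ = ρ →
    ¬ IsX ((Ed t).baseChange (AlgebraicClosure K)) (algebraMap K _ t * rt ρ) (f σ) → σ w = -w)

/-- **the element attached to a cocycle** -/
theorem glo (ht : t ≠ 0) {f : Coch (Ed t)} (hf : IsCoc (Ed t) f) (h2 : ∀ σ, f σ + f σ = 0) :
    ∃ (δ : Cb K) (w : AlgebraicClosure K), w ≠ 0 ∧ w ^ 2 = D.em δ ∧ Sg t D.ρ w f ∧
      (∃ r, δ.N = r ^ 2) ∧ δ.N ≠ 0 ∧
      (IsSquare δ → ∃ T : Pt (Ed t) (AlgebraicClosure K), T + T = 0 ∧
        ∀ σ : Gal K, f σ = act (Ed t) σ.toAlgHom T - T) := by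
  obtain ⟨s, hs⟩ := IsAlgClosed.exists_pow_nat_eq (algebraMap K (AlgebraicClosure K) t)
    (n := 2) (by norm_num)
  have hs0 : s ≠ 0 := by
    rintro rfl
    rw [zero_pow two_ne_zero] at hs
    exact ht ((map_eq_zero _).1 hs.symm)
  set Θ := Th hs hs0 with hΘ
  let g : Coch (W16 K) := fun σ => Θ.symm (f σ)
  have hgf : ∀ σ, Θ (g σ) = f σ := fun σ => Θ.apply_symm_apply _
  have hg2 : ∀ σ, g σ + g σ = 0 := by
    intro σ
    apply Θ.injective
    rw [map_add, hgf, h2, map_zero]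
  have hy0 : ∀ (T : Pt (W16 K) (AlgebraicClosure K)), T + T = 0 → ∀ (x y : AlgebraicClosure K)
      (h : ((W16 K).baseChange (AlgebraicClosure K)).toAffine.Nonsingular x y),
      T = mkp h → y = 0 := by
    intro T hT x y h e
    rw [e] at hT
    exact (mk_add_self D.isR two_ne_zero h).1 hT
  have hact : ∀ (σ : Gal K) (T : Pt (W16 K) (AlgebraicClosure K)), T + T = 0 →
      act (Ed t) σ.toAlgHom (Θ T) = Θ (act (W16 K) σ.toAlgHom T) := fun σ T hT =>
    Th_act hs hs0 _ T (hy0 T hT)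
  have hgc : IsCoc (W16 K) g := by
    refine ⟨hf.1.comp _, fun σ τ => ?_⟩
    apply Θ.injective
    rw [map_add, hgf, hgf, ← hact _ _ (hg2 τ), hgf]
    exact hf.2 σ τ
  obtain ⟨δ, w, hw0, hw, hwX, hwN, hr, hN, hsq⟩ := D.glo hgc hg2
  have hX : ∀ σ, IsX ((Ed t).baseChange (AlgebraicClosure K)) (algebraMap K _ t * rt D.ρ) (f σ) ↔
      IsX ((W16 K).baseChange (AlgebraicClosure K)) (rt D.ρ) (g σ) := by
    intro σ
    rw [← hgf σ]
    exact Th_isX ht hs hs0 (g σ)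
  refine ⟨δ, w, hw0, hw, ⟨fun σ h h' => hwX σ h ((hX σ).1 h'), fun σ h h' =>
    hwN σ h fun h'' => h' ((hX σ).2 h'')⟩, hr, hN, fun h => ?_⟩
  obtain ⟨T, hT, hTσ⟩ := hsq h
  refine ⟨Θ T, by rw [← map_add, hT, map_zero], fun σ => ?_⟩
  rw [hact σ T hT, ← map_sub, ← hgf σ, hTσ σ]

variable {D} in
/-- the stabiliser acts trivially on the points of order two -/
lemma triv_t (ht : t ≠ 0) {σ : Gal K} (hσ : σ D.ρ = D.ρ) {T : Pt (Ed t) (AlgebraicClosure K)}
    (hT : T + T = 0) : act (Ed t) σ.toAlgHom T = T := by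
  have hz := D.σz σ
  have e : ∀ x, σ.toAlgHom (algebraMap K _ t * rt x) = algebraMap K _ t * rt (σ x) := fun x => by
    rw [map_mul, AlgHom.commutes]
    exact congrArg _ (map_rt σ.toAlgHom x)
  rcases (RDisR D (t := t)).tors two_ne_zero hT with rfl | ⟨ha, rfl⟩ | ⟨hb, rfl⟩ | ⟨hc, rfl⟩
  · exact map_zero _
  · exact pt_ext.2 ⟨by rw [e, hσ], map_zero _⟩
  · exact pt_ext.2 ⟨by rw [e, map_mul, hσ, hz], map_zero _⟩
  · exact pt_ext.2 ⟨by rw [e, map_mul, map_pow, hσ, hz], map_zero _⟩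

end glo

end Pool.Agent.H98.V
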